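import Pool.Agent.X127.Cyc.Op

set_option autoImplicit false

open Finset Filter Topology
open Pool.Agent Pool.Agent.X127.Cyc

namespace Pool.Agent.Results.MP_7e070a_pr.ConvolutionProfile

noncomputable section

/-- `μ` is a symmetric probability measure on `ℤ/N`. -/
def SymmProb {N : ℕ} [NeZero N] (μ : ZMod N → ℝ) : Prop :=
  (∀ x, 0 ≤ μ x) ∧ ∑ x, μ x = 1 ∧ ∀ x, μ (-x) = μ x

/-- The transition matrix `P(x,y) = μ(y-x)` of the convolution walk. -/
def walk {N : ℕ} [NeZero N] (μ : ZMod N → ℝ) : Matrix (ZMod N) (ZMod N) ℝ :=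
  fun x y => μ (y - x)

/-- The convolution power `μ^{*t}`. -/
def conv {N : ℕ} [NeZero N] (μ : ZMod N → ℝ) : ℕ → ZMod N → ℝ
  | 0 => fun x => if x = 0 then 1 else 0
  | t + 1 => fun x => ∑ y, conv μ t y * μ (x - y)

/-- `‖μ^{*t} - U‖_TV`. -/
def tv {N : ℕ} [NeZero N] (μ : ZMod N → ℝ) (t : ℕ) : ℝ :=
  (1 / 2 : ℝ) * ∑ x, |conv μ t x - 1 / (N : ℝ)|

/-- `T_mix(ε) = min {t : ‖μ^{*t} - U‖_TV ≤ ε}`. -/
def tmix {N : ℕ} [NeZero N] (μ : ZMod N → ℝ) (ε : ℝ) : ℕ :=
  sInf {t : ℕ | tv μ t ≤ ε}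

/-- The largest absolute value of an eigenvalue of `P` other than `1`. -/
def lamStar {N : ℕ} [NeZero N] (μ : ZMod N → ℝ) : ℝ :=
  sSup ((fun lam : ℝ => |lam|) '' (spectrum ℝ (walk μ) \ {1}))

/-- The relaxation time, the inverse of the absolute spectral gap. -/
def trel {N : ℕ} [NeZero N] (μ : ZMod N → ℝ) : ℝ := 1 / (1 - lamStar μ)

/-- The walk is irreducible. -/
def Irred {N : ℕ} [NeZero N] (μ : ZMod N → ℝ) : Prop :=
  ∀ x y, ∃ t : ℕ, 0 < (walk μ ^ t) x y

/-- The walk is aperiodic: no integer larger than one divides all return times. -/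
def Aper {N : ℕ} [NeZero N] (μ : ZMod N → ℝ) : Prop :=
  ∀ x, ∀ d : ℕ, (∀ t : ℕ, 0 < (walk μ ^ t) x x → d ∣ t) → d = 1

theorem conv_eq {N : ℕ} [NeZero N] (μ : ZMod N → ℝ) (t : ℕ) (x : ZMod N) :
    conv μ t x = (walk μ ^ t) 0 x := by
  induction t generalizing x with
  | zero => simp [conv, Matrix.one_apply, eq_comm]
  | succ t ih =>
    rw [pow_succ, Matrix.mul_apply]
    simp only [conv, walk] at *
    exact sum_congr rfl (fun y _ => by rw [ih])

/-- The measure `θ δ₀ + (1-θ) Unif(S)`. -/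
def lazyMeas {N : ℕ} (θ : ℝ) (S : Finset (ZMod N)) : ZMod N → ℝ :=
  fun x => (if x = 0 then θ else 0) + (if x ∈ S then (1 - θ) / (S.card : ℝ) else 0)

theorem lazyMeas_mulVec {N : ℕ} [NeZero N] (θ : ℝ) (S : Finset (ZMod N)) (f : ZMod N → ℝ) :
    (walk (lazyMeas θ S)).mulVec f = W θ S f := by
  ext x
  rw [W_apply, Helper394.U_apply]
  simp only [Matrix.mulVec, dotProduct, walk, lazyMeas, add_mul, ite_mul, zero_mul, sub_eq_zero]
  rw [Finset.sum_add_distrib, add_comm]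
  congr 1
  · rw [← Finset.sum_filter, mul_div_assoc', Finset.mul_sum, Finset.sum_div]
    refine Finset.sum_bij' (fun y _ => y - x) (fun s _ => x + s) ?_ ?_ ?_ ?_ ?_
    · intro y hy; simpa using hy
    · intro s hs; simpa using hs
    · intro y _; simp
    · intro s _; simp
    · intro y _
      simp only [add_sub_cancel]
      ring
  · rw [Finset.sum_ite_eq' univ x]
    simp

/-- For every holding probability `θ ∈ [0, 1/2]` (in particular for the non-lazy walk, `θ = 0`)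
there are moduli `N_n → ∞`, symmetric sets `S_n ∌ 0` and times `t_n → ∞` such that the walks with
steps `μ_n = θ δ₀ + (1-θ) Unif(S_n)` are irreducible and aperiodic, have relaxation times (inverse
absolute spectral gaps) at most `8`, and have the limit profile
`‖μ_n^{*⌊s t_n⌋} - U‖_TV → e^{-s}`. So the product condition holds and there is no cutoff. -/
theorem result :
    ∀ θ : ℝ, 0 ≤ θ → θ ≤ 1 / 2 →
    ∃ (N : ℕ → ℕ) (_ : ∀ n, NeZero (N n)) (S : ∀ n, Finset (ZMod (N n))) (t : ℕ → ℝ),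
      Tendsto N atTop atTop ∧
      (∀ n, 2 ≤ N n) ∧
      (∀ n, (0 : ZMod (N n)) ∉ S n) ∧
      (∀ n, SymmProb (lazyMeas θ (S n))) ∧
      (∀ n, AddSubgroup.closure {x | 0 < lazyMeas θ (S n) x} = ⊤) ∧
      (∀ n, Irred (lazyMeas θ (S n)) ∧ Aper (lazyMeas θ (S n))) ∧
      (∀ n, 0 < trel (lazyMeas θ (S n)) ∧ trel (lazyMeas θ (S n)) ≤ 8) ∧
      Tendsto t atTop atTop ∧
      (∀ s : ℝ, 0 ≤ s →
        Tendsto (fun n => tv (lazyMeas θ (S n)) ⌊s * t n⌋₊) atTop (𝓝 (Real.exp (-s)))) ∧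
      (∀ ε : ℝ, 0 < ε → ε < 1 →
        Tendsto (fun n => (tmix (lazyMeas θ (S n)) ε : ℝ) / t n) atTop
          (𝓝 (Real.log (1 / ε)))) ∧
      Tendsto (fun n => (tmix (lazyMeas θ (S n)) (1 / 4) : ℝ) / trel (lazyMeas θ (S n)))
        atTop atTop ∧
      (∀ ε : ℝ, 0 < ε → ε < 1 / 2 →
        1 < Real.log (1 / ε) / Real.log (1 / (1 - ε)) ∧
        Tendsto (fun n => (tmix (lazyMeas θ (S n)) ε : ℝ) /
            (tmix (lazyMeas θ (S n)) (1 - ε) : ℝ)) atTop
          (𝓝 (Real.log (1 / ε) / Real.log (1 / (1 - ε))))) ∧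
      ¬ (∀ ε : ℝ, 0 < ε → ε < 1 / 2 →
        Tendsto (fun n => (tmix (lazyMeas θ (S n)) ε : ℝ) /
            (tmix (lazyMeas θ (S n)) (1 - ε) : ℝ)) atTop (𝓝 1)) := by
  intro θ h0 h1
  have h1' : θ ≤ 1 := by linarith
  obtain ⟨N, hN, S, w, hNn, hw1, hw2, hE⟩ := Y307.Prof.exists_seq
  have hB : ∀ n, Helper394.Bad (S n) (n + 64) := fun n =>
    (hE n).bad (by omega) (by nlinarith) (by omega) (by push_cast; exact hw1 n)
      (by push_cast; exact hw2 n)
  have hP : ∀ n, ∀ f : ZMod (N n) → ℝ, (walk (lazyMeas θ (S n))).mulVec f = W θ (S n) f :=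
    fun n f => lazyMeas_mulVec θ (S n) f
  have hcard : ∀ n, ((Fintype.card (ZMod (N n)) : ℕ) : ℝ) = (N n : ℝ) := fun n => by
    rw [ZMod.card]
  have htv : ∀ n k, tv (lazyMeas θ (S n)) k =
      (1 / 2 : ℝ) * ∑ y, |(walk (lazyMeas θ (S n)) ^ k) 0 y -
        1 / (Fintype.card (ZMod (N n)) : ℝ)| := by
    intro n k
    unfold tv
    rw [hcard]
    simp only [conv_eq]
  have hw0 : ∀ n, 0 < w n := fun n => Y307.Prof.w_pos hw2 n
  have hwl : ∀ n, w n < 1 := fun n => Y307.Prof.w_lt hw1 n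
  have hsq : Y307.Prof.Squeeze (fun n k => tv (lazyMeas θ (S n)) k)
      (fun n => 1 - (1 - θ) * (1 - w n)) (fun n => 1 / w n ^ 2)
      (fun n => 1 / ((1 - θ) * (1 - w n))) (fun n => (n + 64) ^ 2) (fun n => n + 64) := by
    refine Y307.Prof.squeeze_of hw1 hw2 (1 - θ) (by linarith) (by linarith) _ ?_ ?_
    · intro n k hk
      rw [htv]
      exact W_tv (hE n) (hB n).nonempty (by omega) h0 h1' (hP n) k hk
    · intro n k
      rw [htv]
      exact Y307.Prof.tv_le_of_min _ (W_row_sum (hB n).nonempty (hP n) k 0) _ (fun y =>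
        W_entry (hE n) (by omega) (hw0 n) (hwl n) h0 h1' (hP n) k 0 y)
  have hspec : ∀ n, ∀ lam ∈ spectrum ℝ (walk (lazyMeas θ (S n))), lam ≠ 1 → |lam| ≤ 7 / 8 :=
    fun n lam hlam hne => W_spec (hB n) h0 h1 (hP n) lam hlam hne
  have hrel : ∀ n, 0 < trel (lazyMeas θ (S n)) ∧ trel (lazyMeas θ (S n)) ≤ 8 := by
    intro n
    have h5 : lamStar (lazyMeas θ (S n)) ≤ 7 / 8 := by
      apply Real.sSup_le _ (by norm_num)
      rintro x ⟨lam, ⟨hlam, hne⟩, rfl⟩
      exact hspec n lam hlam hne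
    have h6 : 0 < 1 - lamStar (lazyMeas θ (S n)) := by linarith
    refine ⟨one_div_pos.mpr h6, ?_⟩
    rw [trel, div_le_iff₀ h6]
    linarith
  have hmix : ∀ ε : ℝ, 0 < ε → ε < 1 →
      Tendsto (fun n => (tmix (lazyMeas θ (S n)) ε : ℝ) /
        (1 / ((1 - θ) * (1 - w n)))) atTop (𝓝 (Real.log (1 / ε))) :=
    fun ε h0 h1 => hsq.mixing h0 h1
  have hratio : ∀ ε : ℝ, 0 < ε → ε < 1 / 2 →
      Tendsto (fun n => (tmix (lazyMeas θ (S n)) ε : ℝ) /
        (tmix (lazyMeas θ (S n)) (1 - ε) : ℝ)) atTop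
        (𝓝 (Real.log (1 / ε) / Real.log (1 / (1 - ε)))) :=
    fun ε h0 h1 => hsq.ratio h0 (by linarith) (by linarith) (by linarith)
  -- all entries of large powers are positive
  have hpos : ∀ n, ∃ t₀ : ℕ, ∀ t ≥ t₀, ∀ x y, 0 < (walk (lazyMeas θ (S n)) ^ t) x y := by
    intro n
    set v := 1 - (1 - θ) * (1 - w n) with hv
    have hv1 : v < 1 := by
      have : 0 < (1 - θ) * (1 - w n) := mul_pos (by linarith) (by linarith [hwl n])
      linarith
    have hv0 : 0 ≤ v := by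
      have : (1 - θ) * (1 - w n) ≤ 1 * 1 :=
        mul_le_mul (by linarith) (by linarith [hw0 n]) (by linarith [hwl n]) (by norm_num)
      linarith
    obtain ⟨t₀, ht₀⟩ := exists_pow_lt_of_lt_one (show (0 : ℝ) < w n ^ 2 by
      have := hw0 n; positivity) hv1
    refine ⟨t₀, fun t ht x y => ?_⟩
    have hlt : v ^ t < w n ^ 2 := lt_of_le_of_lt (pow_le_pow_of_le_one hv0 hv1.le ht) ht₀
    refine lt_of_lt_of_le ?_ (W_entry (hE n) (by omega) (hw0 n) (hwl n) h0 h1' (hP n) t x y)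
    have hN0 : (0 : ℝ) < Fintype.card (ZMod (N n)) := by exact_mod_cast Fintype.card_pos
    refine div_pos (mul_pos ?_ ?_) hN0
    · have : (64 : ℝ) ≤ ((n + 64 : ℕ) : ℝ) := by exact_mod_cast (by omega : 64 ≤ n + 64)
      have h2 : 1 / ((n + 64 : ℕ) : ℝ) ≤ 1 / 64 := one_div_le_one_div_of_le (by norm_num) this
      linarith
    · have hw2' : 0 < w n ^ 2 := by have := hw0 n; positivity
      have : v ^ t * (1 / w n ^ 2) < 1 := by
        rw [mul_one_div, div_lt_one hw2']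
        exact hlt
      linarith
  refine ⟨N, hN, S, fun n => 1 / ((1 - θ) * (1 - w n)), ?_, fun n => ?_, fun n => (hE n).zero,
    ?_, ?_, ?_, hrel, hsq.tlim, fun s hs => hsq.profile hs, hmix, ?_,
    fun ε h0 h1 => ⟨Y307.Prof.log_ratio_ne h0 h1, hratio ε h0 h1⟩, ?_⟩
  · refine tendsto_atTop_mono (fun n => ?_) tendsto_id
    have := hNn n
    simp only [id]
    omega
  · have := hNn n
    omega
  · intro n
    have hSc : (0 : ℝ) < (S n).card := by exact_mod_cast (hB n).nonempty.card_pos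
    refine ⟨fun x => ?_, ?_, fun x => ?_⟩
    · unfold lazyMeas
      have : 0 ≤ (1 - θ) / ((S n).card : ℝ) := div_nonneg (by linarith) hSc.le
      split_ifs <;> linarith
    · unfold lazyMeas
      rw [Finset.sum_add_distrib, Finset.sum_ite_eq' univ (0 : ZMod (N n)), Finset.sum_ite_mem]
      simp only [mem_univ, if_true, univ_inter, sum_const, nsmul_eq_mul]
      field_simp
      ring
    · unfold lazyMeas
      have e1 : (-x = 0) ↔ (x = 0) := neg_eq_zero
      have e2 : (-x ∈ S n) ↔ (x ∈ S n) :=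
        ⟨fun h => by have := (hE n).neg _ h; rwa [neg_neg] at this, fun h => (hE n).neg _ h⟩
      simp only [e1, e2]
  · intro n
    rw [eq_top_iff]
    intro x _
    refine (hB n).closed (AddSubgroup.closure {x | 0 < lazyMeas θ (S n) x} : Set (ZMod (N n))) 0
      (AddSubgroup.zero_mem _) ?_ x
    intro y hy s hs
    refine AddSubgroup.add_mem _ hy (AddSubgroup.subset_closure ?_)
    have hSc : (0 : ℝ) < (S n).card := by exact_mod_cast (hB n).nonempty.card_pos
    have : 0 < (1 - θ) / ((S n).card : ℝ) := div_pos (by linarith) hSc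
    simp only [Set.mem_ofPred_eq, lazyMeas, if_pos hs]
    split_ifs <;> linarith
  · intro n
    obtain ⟨t₀, ht₀⟩ := hpos n
    refine ⟨fun x y => ⟨t₀, ht₀ t₀ le_rfl x y⟩, fun x d hd => ?_⟩
    have ha := hd t₀ (ht₀ t₀ le_rfl x x)
    have hb := hd (t₀ + 1) (ht₀ (t₀ + 1) (by omega) x x)
    have := (Nat.dvd_add_right ha).1 hb
    exact Nat.dvd_one.1 this
  · have h1 : Tendsto (fun n => ((tmix (lazyMeas θ (S n)) (1 / 4) : ℝ) /
        (1 / ((1 - θ) * (1 - w n)))) * (1 / ((1 - θ) * (1 - w n)))) atTop atTop := by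
      refine (hmix (1 / 4) (by norm_num) (by norm_num)).pos_mul_atTop ?_ hsq.tlim
      apply Real.log_pos
      norm_num
    have h2 : Tendsto (fun n => (tmix (lazyMeas θ (S n)) (1 / 4) : ℝ) / 8)
        atTop atTop := by
      refine (h1.atTop_div_const (by norm_num : (0 : ℝ) < 8)).congr fun n => ?_
      have h3 : (1 / ((1 - θ) * (1 - w n)) : ℝ) ≠ 0 := by
        have := hsq.tpos n
        linarith
      rw [div_mul_cancel₀ _ h3]
    refine tendsto_atTop_mono (fun n => ?_) h2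
    exact div_le_div_of_nonneg_left (Nat.cast_nonneg _) (hrel n).1 (hrel n).2
  · intro hcut
    have h1 := tendsto_nhds_unique (hcut (1 / 4) (by norm_num) (by norm_num))
      (hratio (1 / 4) (by norm_num) (by norm_num))
    have h2 := Y307.Prof.log_ratio_ne (ε := 1 / 4) (by norm_num) (by norm_num)
    linarith

end

end Pool.Agent.Results.MP_7e070a_pr.ConvolutionProfile
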